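import Mathlib

/-! A space that is not co-consonant although its Smyth powerspace is. -/

namespace Pool.Agent.Results.MP_dd3b7d_gt.Counter

open Set TopologicalSpace

/-- Scott-open subsets of the lattice of open sets -/
def ScottOpen {X : Type} [TopologicalSpace X] (F : Set (Opens X)) : Prop :=
  IsUpperSet F ∧ ∀ D : Set (Opens X), D.Nonempty → DirectedOn (· ≤ ·) D → sSup D ∈ F →
    ∃ d ∈ D, d ∈ F

/-- the upper topology and the Scott topology of the lattice of open sets coincide -/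
def CoConsonant (X : Type) [TopologicalSpace X] : Prop :=
  ∀ F : Set (Opens X),
    (generateFrom {S | ∃ U : Opens X, S = (Iic U)ᶜ}).IsOpen F ↔ ScottOpen F

/-- non-empty compact saturated sets -/
abbrev Q (X : Type) [TopologicalSpace X] : Type :=
  {K : Set X // K.Nonempty ∧ IsCompact K ∧ K = ⋂₀ {U | IsOpen U ∧ K ⊆ U}}

/-- the upper Vietoris topology -/
@[reducible] def smyth (X : Type) [TopologicalSpace X] : TopologicalSpace (Q X) :=
  generateFrom {S | ∃ U : Set X, IsOpen U ∧ S = {K : Q X | K.1 ⊆ U}}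

theorem scott_of {X : Type} [TopologicalSpace X] {F : Set (Opens X)}
    (h : (generateFrom {S | ∃ U : Opens X, S = (Iic U)ᶜ}).IsOpen F) : ScottOpen F := by
  induction h with
  | basic S hS =>
    obtain ⟨U, rfl⟩ := hS
    refine ⟨fun a b hab ha hb => ha (hab.trans hb), fun D _ _ h => ?_⟩
    by_contra hn
    push Not at hn
    exact h (sSup_le fun d hd => not_not.1 (hn d hd))
  | univ => exact ⟨isUpperSet_univ, fun D ⟨d, hd⟩ _ _ => ⟨d, hd, trivial⟩⟩
  | inter S T _ _ h1 h2 =>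
    refine ⟨h1.1.inter h2.1, fun D hD hd h => ?_⟩
    obtain ⟨a, ha, ha'⟩ := h1.2 D hD hd h.1
    obtain ⟨b, hb, hb'⟩ := h2.2 D hD hd h.2
    obtain ⟨c, hc, h3, h4⟩ := hd a ha b hb
    exact ⟨c, hc, h1.1 h3 ha', h2.1 h4 hb'⟩
  | sUnion S _ h1 =>
    refine ⟨isUpperSet_sUnion fun s hs => (h1 s hs).1, ?_⟩
    rintro D hD hd ⟨s, hs, h⟩
    obtain ⟨a, ha, ha'⟩ := (h1 s hs).2 D hD hd h
    exact ⟨a, ha, s, hs, ha'⟩

/-- a space in which every point has an open neighbourhood base of principal upper sets is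
co-consonant -/
theorem co_of {X : Type} [TopologicalSpace X]
    (h : ∀ (U : Opens X) (x : X), x ∈ U → ∃ (y : X) (V : Opens X), x ∈ V ∧ y ∈ U ∧
      ∀ W : Opens X, y ∈ W → V ≤ W) : CoConsonant X := by
  refine fun F => ⟨scott_of, fun hF => ?_⟩
  let _ : TopologicalSpace (Opens X) := generateFrom {S | ∃ U : Opens X, S = (Iic U)ᶜ}
  change IsOpen F
  have hb : ∀ y : X, IsOpen {W : Opens X | y ∈ W} := fun y => by
    refine isOpen_generateFrom_of_mem ⟨⟨(closure {y})ᶜ, isClosed_closure.isOpen_compl⟩, ?_⟩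
    ext W
    constructor
    · intro hy hW
      exact hW hy (subset_closure rfl)
    · intro hW
      by_contra hy
      refine hW fun z hz hz' => ?_
      obtain ⟨w, hw, rfl⟩ := mem_closure_iff.1 hz' W W.2 hz
      exact hy hw
  refine isOpen_iff_forall_mem_open.2 fun U hU => ?_
  choose! y V h1 h2 h3 using h U
  let D : Set (Opens X) := {W | ∃ s : Finset X, (∀ x ∈ s, x ∈ U) ∧ W = s.sup V}
  have hD : U ≤ sSup D := fun x hx => by
    have : V x ≤ sSup D := le_sSup ⟨{x}, by simpa using hx, by simp⟩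
    exact this (h1 x hx)
  obtain ⟨_, ⟨s, hs, rfl⟩, hs'⟩ := hF.2 D ⟨_, ∅, by simp, rfl⟩ (by
    classical
    rintro _ ⟨s, hs, rfl⟩ _ ⟨t, ht, rfl⟩
    refine ⟨_, ⟨s ∪ t, fun x hx => (Finset.mem_union.1 hx).elim (hs x) (ht x), rfl⟩,
      Finset.sup_mono Finset.subset_union_left, Finset.sup_mono Finset.subset_union_right⟩)
    (hF.1 hD hU)
  refine ⟨⋂ x ∈ s, {W : Opens X | y x ∈ W}, fun W hW => hF.1 (Finset.sup_le fun x hx => ?_) hs',
    isOpen_biInter_finset fun x _ => hb _, mem_iInter₂.2 fun x hx => h2 x (hs x hx)⟩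
  exact h3 x (hs x hx) W (mem_iInter₂.1 hW x hx)

abbrev X : Type := CofiniteTopology ℕ

instance : Infinite X := Infinite.of_injective _ (CofiniteTopology.of (X := ℕ)).injective

theorem not_co : ¬ CoConsonant X := fun h => by
  have h1 : ScottOpen ({⊤} : Set (Opens X)) := by
    refine ⟨fun a b hab ha => top_le_iff.1 ((mem_singleton_iff.1 ha) ▸ hab), fun D hD hd h => ?_⟩
    have hc : IsCompact (univ : Set X) := NoetherianSpace.isCompact _
    obtain ⟨d, hd'⟩ := hc.elim_directed_cover (fun d : D => (d.1 : Set X)) (fun d => d.1.2)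
      (fun x _ => by
        have : x ∈ sSup D := by
          rw [mem_singleton_iff.1 h]
          trivial
        obtain ⟨U, hU, hx⟩ := Opens.mem_sSup.1 this
        exact mem_iUnion.2 ⟨⟨U, hU⟩, hx⟩) (hι := hD.to_subtype)
      (fun a b => by
        obtain ⟨c, hc, h3, h4⟩ := hd a a.2 b b.2
        exact ⟨⟨c, hc⟩, h3, h4⟩)
    exact ⟨d, d.2, top_le_iff.1 hd'⟩
  have key : ∀ F : Set (Opens X), (generateFrom {S | ∃ U : Opens X, S = (Iic U)ᶜ}).IsOpen F →
      ⊤ ∈ F → ∃ s : Set X, s.Finite ∧ ∀ W : Opens X, s ⊆ W → W ∈ F := by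
    intro F hF
    induction hF with
    | basic S hS =>
      obtain ⟨U, rfl⟩ := hS
      intro h
      obtain ⟨x, -, hx⟩ := not_subset.1 (show ¬ ((⊤ : Opens X) : Set X) ⊆ U from h)
      exact ⟨{x}, finite_singleton x, fun W hW hWU => hx (hWU (hW rfl))⟩
    | univ => exact fun _ => ⟨∅, finite_empty, fun _ _ => trivial⟩
    | inter S T _ _ h1 h2 =>
      intro h
      obtain ⟨s, hs, hs'⟩ := h1 h.1
      obtain ⟨t, ht, ht'⟩ := h2 h.2
      exact ⟨s ∪ t, hs.union ht, fun W hW =>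
        ⟨hs' W (subset_union_left.trans hW), ht' W (subset_union_right.trans hW)⟩⟩
    | sUnion S _ h1 =>
      rintro ⟨T, hT, h⟩
      obtain ⟨s, hs, hs'⟩ := h1 T hT h
      exact ⟨s, hs, fun W hW => ⟨T, hT, hs' W hW⟩⟩
  obtain ⟨s, hs, hs'⟩ := key _ ((h _).2 h1) rfl
  obtain ⟨z, hz⟩ := hs.infinite_compl.nonempty
  have h2 := hs' ⟨{z}ᶜ, isOpen_compl_singleton⟩ (fun x hx e => hz (mem_singleton_iff.1 e ▸ hx))
  have h3 : z ∈ (⟨{z}ᶜ, isOpen_compl_singleton⟩ : Opens X) := by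
    rw [mem_singleton_iff.1 h2]
    trivial
  exact h3 rfl

theorem result : ∃ (X : Type) (_ : TopologicalSpace X), T0Space X ∧
    @CoConsonant (Q X) (smyth X) ∧ ¬ CoConsonant X := by
  refine ⟨X, inferInstance, inferInstance, ?_, not_co⟩
  let _ := smyth X
  have key : ∀ S : Set (Q X), IsOpen S → ∀ K ∈ S, ∃ U : Set X, IsOpen U ∧ K.1 ⊆ U ∧
      ∀ K' : Q X, K'.1 ⊆ U → K' ∈ S := by
    intro S hS
    induction hS with
    | basic S hS =>
      obtain ⟨U, hU, rfl⟩ := hS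
      exact fun K hK => ⟨U, hU, hK, fun _ h => h⟩
    | univ => exact fun K _ => ⟨univ, isOpen_univ, subset_univ _, fun _ _ => trivial⟩
    | inter S T _ _ h1 h2 =>
      intro K hK
      obtain ⟨U, hU, h3, h4⟩ := h1 K hK.1
      obtain ⟨V, hV, h5, h6⟩ := h2 K hK.2
      exact ⟨U ∩ V, hU.inter hV, subset_inter h3 h5, fun K' h =>
        ⟨h4 K' (h.trans inter_subset_left), h6 K' (h.trans inter_subset_right)⟩⟩
    | sUnion S _ h1 =>
      rintro K ⟨T, hT, hK⟩
      obtain ⟨U, hU, h3, h4⟩ := h1 T hT K hK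
      exact ⟨U, hU, h3, fun K' h => ⟨T, hT, h4 K' h⟩⟩
  refine co_of fun S K hK => ?_
  obtain ⟨U, hU, h1, h2⟩ := key S S.2 K hK
  let y : Q X := ⟨U, K.2.1.mono h1, NoetherianSpace.isCompact _,
    subset_antisymm (subset_sInter fun _ h => h.2) (sInter_subset_of_mem ⟨hU, subset_rfl⟩)⟩
  refine ⟨y, ⟨{K' | K'.1 ⊆ U}, isOpen_generateFrom_of_mem ⟨U, hU, rfl⟩⟩, h1, h2 y subset_rfl,
    fun W hW K' hK' => ?_⟩
  obtain ⟨V, -, h3, h4⟩ := key W W.2 y hW
  exact h4 K' (subset_trans hK' h3)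

end Pool.Agent.Results.MP_dd3b7d_gt.Counter
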